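import Pool.Agent.R567.AF3

set_option autoImplicit false

/-!
# An instance all of whose maximal schedules contain an A-configuration

All definitions (instances, plans, feasible schedules, events, blocks, normality, abnormality point,
the relation `⊴`, maximal schedules, A-configurations, A-free schedules) are in
`Pool.Agent.R567.AF1`.

The instance has 15 jobs: `p₀, p₁, p₂`, released at time `0`, all of which precede `a₀` and `a₁`;
`c₀, c₁`, released at time `2`, both of which precede the first job of the chain
`h₀ ≺ h₁ ≺ ... ≺ h₇`. The chain is long, so that in an optimal schedule `c₀, c₁` fill the time from `2`
to `3` and `h₀` is processed from `3` to `4`. The minimum cost is `77.5`. In every schedule of this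
cost the jobs `p` occupy both processors until `1.5`; so both `a`s receive `1/2` before time `2` and
wait from `2` to `3`; the other processor then completes one of them at `3.5` and the other one at
`4`, which is an A-configuration of length `1/2` (the first of them is related to the jobs `p` only,
and these are completed by time `2`).
-/

namespace Pool.Agent.Results.MP_21ba69_lc.NoAFreeMaximal

open Pool.Agent.R567.AF

/-- There is an instance which has maximal schedules, and none of whose maximal schedules is
A-free. -/
theorem result : ∃ I : Instance, (∃ P : Plan I, Maximal P) ∧
    ∀ P : Plan I, Maximal P → ¬ AFree P :=
  ⟨inst, main⟩

end Pool.Agent.Results.MP_21ba69_lc.NoAFreeMaximal
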